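import Pool.Agent.H260.CH.Fou

/-!
# Chernoff's density is strongly log-concave

`Z` is the almost surely unique maximiser over the real line of `W(t) - t^2`, `W` a two-sided
standard Brownian motion.  Groeneboom (1985, 1989) showed that `Z` has the density
`f_Z(t) = (1/2) g(t) g(-t)`, where the function `g` has the Fourier transform
`∫ exp(iλs) g(s) ds = 2^{1/3} / Ai(i 2^{-1/3} λ)`, with `Ai` the Airy function.  This formula is
how Chernoff's density enters here.
-/

set_option autoImplicit false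

open Complex MeasureTheory Set

namespace Pool.Agent.Results.MP_0705dc_pr.ChernoffStrong

/-- the Airy function `Ai(z) = (1/2π) ∫ exp(i (w^3/3 + z w)) dw` over the line `Im w = 1` -/
noncomputable def airy (z : ℂ) : ℂ :=
  ((1 / (2 * Real.pi) : ℝ) : ℂ) *
    ∫ s : ℝ, cexp (I * (((s : ℂ) + I) ^ 3 / 3 + z * ((s : ℂ) + I)))

/-- `g` is Groeneboom's function: it is continuous and integrable and
`∫ exp(iλs) g(s) ds = 2^{1/3} / Ai(i 2^{-1/3} λ)` for every real `λ` -/
structure IsGroeneboom (g : ℝ → ℝ) : Prop where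
  cont : Continuous g
  integrable : Integrable g
  transform : ∀ l : ℝ, ∫ s : ℝ, cexp (I * (l : ℂ) * (s : ℂ)) * ((g s : ℝ) : ℂ) =
    (((2 : ℝ) ^ ((1 : ℝ) / 3) : ℝ) : ℂ) /
      airy (I * ((((2 : ℝ) ^ (-((1 : ℝ) / 3)) : ℝ) * l : ℝ) : ℂ))

/-- Chernoff's density `f_Z(t) = (1/2) g(t) g(-t)` -/
noncomputable def chernoff (g : ℝ → ℝ) (t : ℝ) : ℝ := 1 / 2 * g t * g (-t)

/-- Groeneboom's function exists and is unique, and the density `f_Z(t) = (1/2) g(t) g(-t)` of
Chernoff's distribution is strongly log-concave: it is positive and of class `C^2`, and there is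
`c > 0` with `-(log f_Z)'' ≥ c` everywhere; equivalently `-log f_Z(t) - (c/2) t^2` is convex. -/
theorem result :
    (∃! g : ℝ → ℝ, IsGroeneboom g) ∧
    ∀ g : ℝ → ℝ, IsGroeneboom g → ∃ c : ℝ, 0 < c ∧
      (∀ t, 0 < chernoff g t) ∧ ContDiff ℝ 2 (chernoff g) ∧
      (∀ t, c ≤ -(iteratedDeriv 2 (fun s => Real.log (chernoff g s)) t)) ∧
      ConvexOn ℝ Set.univ (fun t => -Real.log (chernoff g t) - c / 2 * t ^ 2) := by
  have hg0 : IsGroeneboom (fun t => (Pool.Agent.R748.CH.gG t).re) :=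
    ⟨Pool.Agent.H260.CH.g_cont, Pool.Agent.H260.CH.g_int, Pool.Agent.H260.CH.g_fourier⟩
  have huniq : ∀ g : ℝ → ℝ, IsGroeneboom g → g = fun t => (Pool.Agent.R748.CH.gG t).re := by
    intro g hg
    refine Pool.Agent.H260.CH.g_unique hg.cont hg.integrable hg0.cont hg0.integrable (fun l => ?_)
    rw [hg.transform l, hg0.transform l]
  refine ⟨⟨_, hg0, fun g hg => huniq g hg⟩, fun g hg => ?_⟩
  rw [huniq g hg]
  exact Pool.Agent.H260.CH.slc

end Pool.Agent.Results.MP_0705dc_pr.ChernoffStrong
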